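import Pool.Agent.X89.HM5

open MeasureTheory

namespace Pool.Agent.Results.MP_1d723d_an.LeftInequalityFails

/-- `E_x f(x)`: the expectation over `x` uniformly distributed on the unit sphere of `ℝⁿ`, i.e. the
average of `f` with respect to the surface measure `volume.toSphere` on the unit sphere. -/
noncomputable def sphereE (n : ℕ) (f : EuclideanSpace ℝ (Fin n) → ℝ) : ℝ :=
  ⨍ x : Metric.sphere (0 : EuclideanSpace ℝ (Fin n)) 1, f x
    ∂(volume : Measure (EuclideanSpace ℝ (Fin n))).toSphere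

/-- The matrix-vector product `Ax` as a vector of the Euclidean space `ℝⁿ`. -/
noncomputable def app {n : ℕ} (A : Matrix (Fin n) (Fin n) ℝ) (x : EuclideanSpace ℝ (Fin n)) :
    EuclideanSpace ℝ (Fin n) :=
  WithLp.toLp 2 (A.mulVec (WithLp.ofLp x))

/-- `‖A‖_{H^p} = (E_x |Ax|^p)^{1/p}`. -/
noncomputable def normH (p : ℝ) {n : ℕ} (A : Matrix (Fin n) (Fin n) ℝ) : ℝ :=
  (sphereE n fun x => ‖app A x‖ ^ p) ^ (1 / p)

/-- `⟨A, B⟩ = E_x ⟨Ax, Bx⟩`. -/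
noncomputable def inn {n : ℕ} (A B : Matrix (Fin n) (Fin n) ℝ) : ℝ :=
  sphereE n fun x => inner ℝ (app A x) (app B x)

/-- The set `{⟨A, B⟩ : ‖B‖_{H^1} ≤ 1}`. -/
def dualSet {n : ℕ} (A : Matrix (Fin n) (Fin n) ℝ) : Set ℝ :=
  {r | ∃ B : Matrix (Fin n) (Fin n) ℝ, normH 1 B ≤ 1 ∧ r = inn A B}

/-- `‖A‖_{H^1_*} = sup {⟨A, B⟩ : ‖B‖_{H^1} ≤ 1}`. -/
noncomputable def dualNorm {n : ℕ} (A : Matrix (Fin n) (Fin n) ℝ) : ℝ := sSup (dualSet A)

/-- The constant `c_n`. -/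
noncomputable def c (n : ℕ) : ℝ :=
  2 ^ (5 / 4 : ℝ) / Real.sqrt Real.pi * (Real.Gamma (((n : ℝ) + 1) / 2) / Real.Gamma ((n : ℝ) / 2)) *
    (((n : ℝ) + 2) ^ (1 / 4 : ℝ) / (n : ℝ) ^ (3 / 4 : ℝ))

/-- The left inequality `c_n ‖A‖_{H^4} ≤ ‖A‖_{H^1_*}` fails for `n = 7`; hence the conjectured pair
of inequalities fails. -/
theorem result :
    (∃ A : Matrix (Fin 7) (Fin 7) ℝ, BddAbove (dualSet A) ∧ dualNorm A < c 7 * normH 4 A) ∧
    ¬ (∀ n : ℕ, 2 < n → ∀ A : Matrix (Fin n) (Fin n) ℝ,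
        c n * normH 4 A ≤ dualNorm A ∧ dualNorm A ≤ normH 4 A) := by
  have key : ∃ A : Matrix (Fin 7) (Fin 7) ℝ, BddAbove (dualSet A) ∧ dualNorm A < c 7 * normH 4 A := by
    refine ⟨Matrix.diagonal Pool.Agent.X89.HM.dd, ?_⟩
    have hb : ∀ r ∈ dualSet (Matrix.diagonal Pool.Agent.X89.HM.dd), r ≤ 1 := by
      rintro r ⟨B, hB, rfl⟩
      exact (Pool.Agent.X89.HM.dual_le B).trans hB
    refine ⟨⟨1, hb⟩, ?_⟩
    have hne : (dualSet (Matrix.diagonal Pool.Agent.X89.HM.dd)).Nonempty := by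
      refine ⟨_, 0, ?_, rfl⟩
      have h0 : normH 1 (0 : Matrix (Fin 7) (Fin 7) ℝ) = 0 := by
        simp [normH, sphereE, app]
      rw [h0]; exact zero_le_one
    exact lt_of_le_of_lt (csSup_le hne hb) Pool.Agent.X89.HM.big
  refine ⟨key, fun h => ?_⟩
  obtain ⟨A, _, hA⟩ := key
  exact absurd (h 7 (by norm_num) A).1 (not_le.2 hA)

end Pool.Agent.Results.MP_1d723d_an.LeftInequalityFails
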